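import Pool.Agent.Run7.h997.AC.BT
import Pool.Agent.Run7.h997.AC.CV
import Pool.Agent.Run7.h997.AC.TAY
import Pool.Agent.Run7.h984.AC.Circ
import Pool.Agent.Run7.h921.AC.POL
import Pool.Agent.Run7.h714.AC.UF
import Pool.Agent.Run7.h714.AC.RHO
import Pool.Agent.Run7.h431.AC.GR
import Pool.Agent.Run7.h431.AC.AREA
import Pool.Agent.Run7.h613.AC.NB
import Pool.Agent.Run7.h613.AC.RED
import Pool.Agent.Run7.h324.AC.SG
import Pool.Agent.Run7.h648.AC.LOGF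
import Pool.Agent.Run7.h648.AC.HARM
import Pool.Agent.Run7.h648.AC.KOE
import Pool.Agent.Run7.h781.AC.GB
import Pool.Agent.Run7.h633.AC.FUB
import Pool.Agent.Run7.h633.AC.LOWR
import Pool.Agent.Run7.h590.AC.SIGD
import Pool.Agent.Run7.h590.AC.SIG
import Pool.Agent.Run7.h713.AC.MAIN
import Pool.Agent.Run7.h713.AC.FINAL
import Pool.Agent.Run7.h417.AC.PICK
import Pool.Agent.Run7.h417.AC.EXT
import Pool.Agent.Run7.h417.AC.FIN2
import Pool.Agent.Run7.h104.AC.Defs2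

set_option autoImplicit false

namespace Pool.Agent.Run7.h104.AC

open MeasureTheory Complex Set Filter Topology Metric

theorem pCV : S_CV := Run7.h997.AC.t_CV
theorem pBT : S_BT := Run7.h997.AC.t_BT
theorem pTAY : S_TAY := Run7.h997.AC.t_TAY
theorem pCAH : S_CAH := Run7.h984.AC.t_CAH
theorem pCAL : S_CAL := Run7.h984.AC.t_CAL pCAH
theorem pCALC : S_CALC := Run7.h984.AC.t_CALC
theorem pAVG : S_AVG := Run7.h984.AC.t_AVG
theorem pPOL : S_POL := Run7.h921.AC.t_POL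
theorem pUF : S_UF := Run7.h714.AC.t_UF
theorem pRHO : S_RHO := Run7.h714.AC.t_RHO
theorem pLOGF : S_LOGF := Run7.h648.AC.t_LOGF
theorem pHARM : S_HARM := Run7.h648.AC.t_HARM pLOGF
theorem pKOE : S_KOE := Run7.h648.AC.t_KOE pCV
theorem pGR : S_GR := Run7.h431.AC.t_GR pCV pRHO pKOE
theorem pAREA : S_AREA := Run7.h431.AC.t_AREA pCV pRHO
theorem pNB : S_NB := Run7.h613.AC.NB.t_NB pTAY pRHO
theorem pGB : S_GB := Run7.h781.AC.t_GB pLOGF pCAH pCAL pCALC pPOL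
theorem pFUB : S_FUB := Run7.h633.AC.Fub.t_FUB pUF pRHO
theorem pSG : S_SG := Run7.h324.AC.t_SG pTAY pUF
theorem pSIGD : S_SIGD := Run7.h590.AC.t_SIGD pPOL pCAH pHARM pGB pAVG pFUB
theorem pSIG : S_SIG := Run7.h590.AC.t_SIG pSG pHARM pFUB pSIGD
theorem pLOWR : S_LOWR := Run7.h633.AC.t_LOWR pCV pRHO pKOE pNB pSIG
theorem pMAIN : S_MAIN := Run7.h713.AC.t_MAIN pCV pBT pRHO pAREA pGR pNB pLOWR
theorem pRED : S_RED := Run7.h613.AC.RED.t_RED pMAIN
theorem final : S_FINAL := Run7.h713.AC.t_FINAL pRED pAREA pRHO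
theorem pPICK : S_PICK := Run7.h417.AC.t_PICK
theorem pEXT : S_EXT := Run7.h417.AC.t_EXT pPICK pRHO pAREA
theorem fin2 : S_FIN2 := Run7.h417.AC.t_FIN2 pRED pEXT

end Pool.Agent.Run7.h104.AC
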