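import Mathlib

set_option autoImplicit false

/-!
# MP_0b1b3b_an: the sharp constant in `|a_2| <= 2 - c A^(-1/2)` is `c = sqrt (27 pi / 8)`

Interface.  `S_...` are the statements of the pieces, with proofs in the docstrings.

Overview.  Let `F` be univalent in a neighbourhood of the closed disc, `F z = β z + B z^2 + ...`,
`B = β (2 - 3 β / 2)`.  We show `area F(D) >= 3 pi / 2`, the area of the cardioid `G = Cd (D)`,
`Cd t = t + t^2 / 2`.  (For `f` in the class `S`, `F z = lam * f (mu * z)` with the right `β`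
gives the theorem.)  Metric: `rho (Cd t) = |t|^(-3)` for `|t| < 1`, `rho = 1` off `G`; it is at least
`1`.  Since `log rho = 3 (U w - log |w|)` with the potential `U` of a measure on the boundary of `G`,
the function `sig = log (β rho (F z) |F' z|^2 / Rw z)`, `Rw z = |1 + z|^2 / |z|^3`, satisfies
`∫ over D of Rw * sig >= 0` (Jensen type formula with the weight `Rw`; there is `V >= 0` with Laplacian
`Rw` and vanishing Cauchy data on the circle), hence by `exp x >= 1 + x` the `rho`-area of `F(D)` is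
at least that of `G`, and as `rho >= 1` on `G`, `rho = 1` off `G`, the same holds for the areas.
-/

namespace Pool.Agent.Run7.h104.AC

open MeasureTheory Complex Set Filter Topology Metric

noncomputable section

/-- The cardioid map. -/
def Cd (t : ℂ) : ℂ := t + t ^ 2 / 2

/-- The Koebe function. -/
def Kb (z : ℂ) : ℂ := z / (1 - z) ^ 2

/-- The weight. -/
def Rw (z : ℂ) : ℝ := ‖1 + z‖ ^ 2 / ‖z‖ ^ 3

/-- The interior of the cardioid. -/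
def G : Set ℂ := Cd '' ball 0 1

/-- Potential of the image of the uniform measure on the circle under `Cd`. -/
def U (w : ℂ) : ℝ := Real.circleAverage (fun ζ => Real.log ‖w - Cd ζ‖) 0 1

/-- The density of the metric. -/
def rho (w : ℂ) : ℝ := Real.exp (3 * (U w - Real.log ‖w‖))

/-- `M_η`. -/
def Mset (η : ℝ) : Set ℂ := ball 0 1 ∩ {t | ‖Kb t‖ < η}

/-- `N_η`, the preimage of `Cd (M_η)` under `F`. -/
def Nset (F : ℂ → ℂ) (η : ℝ) : Set ℂ := {z | z ∈ ball (0 : ℂ) 1 ∧ F z ∈ Cd '' Mset η}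

/-- The annulus. -/
def Ann (δ : ℝ) : Set ℂ := {z | δ < ‖z‖ ∧ ‖z‖ < 1}

/-- Univalent functions with the right first two coefficients. -/
structure Uni (R0 β : ℝ) (F : ℂ → ℂ) : Prop where
  hR : 1 < R0
  hβ : 0 < β
  hF : DifferentiableOn ℂ F (ball 0 R0)
  inj : InjOn F (ball 0 R0)
  F0 : F 0 = 0
  F1 : deriv F 0 = (β : ℂ)
  F2 : deriv (deriv F) 0 = ((2 * (β * (2 - 3 * β / 2)) : ℝ) : ℂ)

/-- The harmonic part of `sig`. -/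
def har (β : ℝ) (F : ℂ → ℂ) (z : ℂ) : ℝ :=
  2 * Real.log ‖deriv F z‖ - 3 * Real.log ‖F z‖ + 3 * Real.log ‖z‖ + Real.log β
    - 2 * Real.log ‖1 + z‖

/-- `sig = log (β rho (F z) |F' z|^2 / Rw z)`. -/
def sig (β : ℝ) (F : ℂ → ℂ) (z : ℂ) : ℝ := har β F z + 3 * U (F z)

/-! ## Measure theory -/

/-- PIECE CV: change of variables for injective analytic maps
(`MeasureTheory.lintegral_image_eq_lintegral_abs_det_fderiv_mul`,
`measurable_image_of_fderivWithin`; the real determinant of multiplication by `F' z` is `|F' z|^2`). -/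
def S_CV : Prop :=
  ∀ (Ω : Set ℂ) (F : ℂ → ℂ), IsOpen Ω → DifferentiableOn ℂ F Ω → InjOn F Ω →
    ∀ E : Set ℂ, E ⊆ Ω → MeasurableSet E → MeasurableSet (F '' E) ∧ ∀ g : ℂ → ENNReal,
      ∫⁻ w in F '' E, g w = ∫⁻ z in E, ENNReal.ofReal (‖deriv F z‖ ^ 2) * g (F z)

/-- PIECE BT (bathtub).  With `Y = G0 \ N`: `X ∩ N = ∅`, so `X \ Y = X \ G0`, where `ρ = 1`, and
`ρ >= 1` on `Y \ X`.  Split `Y` and `X` into `X ∩ Y` and the rest and cancel the (finite) integral over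
`X ∩ Y`: `vol (Y \ X) <= ∫ over Y \ X of ρ <= ε + ∫ over X \ Y of ρ = ε + vol (X \ Y)`. -/
def S_BT : Prop :=
  ∀ (ρ : ℂ → ENNReal) (G0 X N : Set ℂ) (ε : ENNReal), Measurable ρ → MeasurableSet G0 →
    MeasurableSet X → MeasurableSet N → Disjoint X N → (∀ w, w ∉ G0 → ρ w = 1) → (∀ w, 1 ≤ ρ w) →
    ∫⁻ w in G0 \ N, ρ w ≤ (∫⁻ w in X, ρ w) + ε → ∫⁻ w in G0 \ N, ρ w ≠ ⊤ →
    volume (G0 \ N) ≤ volume X + ε

/-- PIECE POL: polar coordinates on the annulus (`Complex.integral_comp_polarCoord_symm`, Fubini). -/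
def S_POL : Prop :=
  ∀ (δ : ℝ) (f : ℂ → ℝ), 0 < δ → δ < 1 → IntegrableOn f (Ann δ) →
    IntervalIntegrable (fun r => 2 * Real.pi * r * Real.circleAverage f 0 r) volume δ 1 ∧
    ∫ z in Ann δ, f z = ∫ r in δ..1, 2 * Real.pi * r * Real.circleAverage f 0 r

/-! ## The cardioid and its potential -/

/-- PIECE UF.  (1) For all `ζ` on the circle but at most two,
`log |Cd t - Cd ζ| = log |t - ζ| + log |t + 2 + ζ| - log 2`; use
`circleAverage_log_norm_sub_const_eq_posLog` (and its version with `+`) and `posLog x = log x` for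
`x >= 1`.  (2) `t = -1 + s`, `s ^ 2 = 1 + 2 w`, `0 <= Re s`, `|s| <= 1 + |w|`. -/
def S_UF : Prop :=
  (∀ t : ℂ, 1 ≤ ‖t + 2‖ → U (Cd t) = Real.posLog ‖t‖ + Real.log ‖t + 2‖ - Real.log 2) ∧
  (∀ w : ℂ, ∃ t : ℂ, Cd t = w ∧ 1 ≤ ‖t + 2‖ ∧ ‖t‖ ≤ 2 + ‖w‖ ∧ ‖t + 2‖ ≤ 2 + ‖w‖)

/-- PIECE RHO, from `S_UF`.  `Cd s = Cd t` iff `s = t` or `s + t = -2`.  `|Cd t| = |t| |t + 2| / 2`, so
`U (Cd t) - log |Cd t| = posLog |t| - log |t|` if `1 <= |t + 2|`, `t ≠ 0`, which is `- log |t|` for `|t| < 1`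
and `0` for `|t| >= 1`.  If `w ∉ G`, the `t` of `S_UF` has `|t| >= 1`.  `U 0 = 0`.  `U` is measurable as a
parametric integral of a measurable function of two variables. -/
def S_RHO : Prop :=
  InjOn Cd (ball 0 1) ∧ (∀ t : ℂ, t ≠ 0 → ‖t‖ < 1 → rho (Cd t) = (‖t‖ ^ 3)⁻¹) ∧
  (∀ w, w ∉ G → rho w = 1) ∧ (∀ w, 1 ≤ rho w) ∧ Measurable U ∧ Measurable rho ∧
  (∀ w, -Real.log 2 ≤ U w ∧ U w ≤ 2 * Real.log (2 + ‖w‖))

/-- PIECE AREA, from `S_CV` (and injectivity of `Cd`): `∫ over D of |1 + t|^2 = 3 pi / 2`;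
`|Kb t| >= |t| / 4` in the disc, so `Mset η` is contained in `ball 0 (4 η)` and
`vol (Cd (Mset η)) <= 4 vol (ball 0 (4 η))`. -/
def S_AREA : Prop :=
  MeasurableSet G ∧ volume G = ENNReal.ofReal (3 * Real.pi / 2) ∧
  (∀ η : ℝ, MeasurableSet (Mset η) ∧ MeasurableSet (Cd '' Mset η)) ∧
  Tendsto (fun η : ℝ => volume (Cd '' Mset η)) (𝓝[>] 0) (𝓝 0)

/-- PIECE KOE, from `S_CV`.  `Kb` is injective on the disc, `|Kb' z|^2 = |1 + z|^2 / |1 - z|^6`, so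
`Rw z = |Kb' z|^2 * |Kb z|^(-3)`; the image of the disc is the complement of the real half line
`k <= -1/4` (`k z^2 - (2 k + 1) z + k = 0` has roots with product `1`; `|z| = 1` only for these `k`), which has
measure `0`.  So the integral is `∫ over {lam <= |k|} of |k|^(-3) = 2 pi / lam`. -/
def S_KOE : Prop :=
  ∀ lam : ℝ, 0 < lam →
    ∫⁻ z in ball (0 : ℂ) 1 ∩ {z | lam ≤ ‖Kb z‖}, ENNReal.ofReal (Rw z)
      = ENNReal.ofReal (2 * Real.pi / lam)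

/-- PIECE GR, from `S_CV`, `S_RHO`, `S_KOE`.  `G \ Cd (Mset η) = Cd (ball 0 1 ∩ {η <= |Kb|})`, and
`|Cd' t|^2 * rho (Cd t) = |1 + t|^2 / |t|^3 = Rw t`. -/
def S_GR : Prop :=
  ∀ η : ℝ, 0 < η → ∫⁻ w in G \ Cd '' Mset η, ENNReal.ofReal (rho w)
    = ENNReal.ofReal (2 * Real.pi / η)

/-! ## Local expansions -/

/-- PIECE TAY: Taylor expansions; `t = -1 + sqrt (1 + 2 F z)` (small), and
`t = F - t^2 / 2 = F - F^2 / 2 + O(z^3)`. -/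
def S_TAY : Prop :=
  ∀ (R0 β : ℝ) (F : ℂ → ℂ), Uni R0 β F → ∃ C δ0 : ℝ, 0 < C ∧ 0 < δ0 ∧ δ0 < 1 ∧
    ∀ z : ℂ, ‖z‖ < δ0 →
      ‖F z - (β * z + β * (2 - 3 * β / 2) * z ^ 2)‖ ≤ C * ‖z‖ ^ 3 ∧
      ‖deriv F z - (β + 2 * (β * (2 - 3 * β / 2)) * z)‖ ≤ C * ‖z‖ ^ 2 ∧
      ∃ t : ℂ, ‖t‖ < 1 / 2 ∧ Cd t = F z ∧
        ‖t - (β * z + (2 * β - 2 * β ^ 2) * z ^ 2)‖ ≤ C * ‖z‖ ^ 3

/-- PIECE NB, from `S_TAY` and injectivity of `Cd` (`S_RHO`).  For small `η`, `Cd (Mset η)` is a small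
neighbourhood of `0` (`Mset η` is in `ball 0 (4 η)`), `F` is open, so `Cd (Mset η) ⊆ F (ball 0 δ0)`; if
`z ∈ Nset F η` then by injectivity `z` is small, `F z = Cd t` with `|Kb t| < η`, the same `t` as in `S_TAY`,
`|z| <= (2 / β) |t| <= (8 / β) η`, and `|Kb t - β Kb z| <= C |z|^3` since
`Kb t = t + 2 t^2 + O(t^3) = β z + 2 β z^2 + O(z^3)`. -/
def S_NB : Prop :=
  ∀ (R0 β : ℝ) (F : ℂ → ℂ), Uni R0 β F → ∃ C η0 : ℝ, 0 < C ∧ 0 < η0 ∧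
    ∀ η : ℝ, 0 < η → η < η0 → Cd '' Mset η ⊆ F '' ball 0 1 ∧ MeasurableSet (Nset F η) ∧
      (∃ c : ℝ, 0 < c ∧ ball 0 c ⊆ Nset F η) ∧ Nset F η ⊆ ball 0 (C * η) ∧
      ∀ z ∈ Nset F η, ‖Kb z‖ < η / β + C * η ^ 3

/-- PIECE SG, from `S_TAY`, `S_UF`.  With the `t` of `S_TAY`: `U (F z) = log |t + 2| - log 2` and
`|F z| = |t| |t + 2| / 2`, so `sig = 2 log |F'/β| - 3 log |t / (β z)| - 2 log |1 + z|`, with
`F'/β = 1 + (4 - 3 β) z + O(z^2)`, `t / (β z) = 1 + (2 - 2 β) z + O(z^2)`, and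
`log |1 + x| = Re x + O(x^2)`; the first order terms cancel:
`2 (4 - 3 β) - 3 (2 - 2 β) - 2 = 0`. -/
def S_SG : Prop :=
  ∀ (R0 β : ℝ) (F : ℂ → ℂ), Uni R0 β F → ∃ C δ0 : ℝ, 0 < C ∧ 0 < δ0 ∧
    ∀ z : ℂ, z ≠ 0 → ‖z‖ < δ0 → |sig β F z| ≤ C * ‖z‖ ^ 2

/-! ## Circle averages -/

/-- PIECE LOGF: logarithm of a nonvanishing analytic function (primitive of `f' / f`,
`DifferentiableOn.isExactOn_ball`). -/
def S_LOGF : Prop :=
  ∀ (R : ℝ) (f : ℂ → ℂ), 0 < R → DifferentiableOn ℂ f (ball 0 R) → (∀ z ∈ ball (0 : ℂ) R, f z ≠ 0) →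
    ∃ H : ℂ → ℂ, DifferentiableOn ℂ H (ball 0 R) ∧ (∀ z ∈ ball (0 : ℂ) R, Complex.exp (H z) = f z) ∧
      deriv H 0 = deriv f 0 / f 0

/-- PIECE CAH.  On `|z| = r`, `|1 + z|^2 = 1 + r^2 + 2 r cos θ = 1 + r^2 + z + r^2 / z`; by Cauchy
the averages of `H`, `H z`, `H r^2 / z` are `H 0`, `0`, `r^2 H' 0`. -/
def S_CAH : Prop :=
  ∀ (ρ r : ℝ) (H : ℂ → ℂ), 0 < r → r < ρ → DifferentiableOn ℂ H (ball 0 ρ) →
    Real.circleAverage (fun z => ‖1 + z‖ ^ 2 * (H z).re) 0 r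
      = (1 + r ^ 2) * (H 0).re + r ^ 2 * (deriv H 0).re

/-- PIECE CAL, from `S_CAH`.  For `r < |a|`: `log |z - a| = log |a| + Re log (1 - z / a)`.  For `|a| < r`
and `|z| = r`: `|z - a| = r |1 - conj a * z / r^2|`, `log |z - a| = log r + Re log (1 - conj a z / r^2)`. -/
def S_CAL : Prop :=
  ∀ (a : ℂ) (r : ℝ), a ≠ 0 → 0 < r →
    (r < ‖a‖ → Real.circleAverage (fun z => ‖1 + z‖ ^ 2 * Real.log ‖z - a‖) 0 r
      = (1 + r ^ 2) * Real.log ‖a‖ - r ^ 2 * (1 / a).re) ∧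
    (‖a‖ < r → Real.circleAverage (fun z => ‖1 + z‖ ^ 2 * Real.log ‖z - a‖) 0 r
      = (1 + r ^ 2) * Real.log r - a.re)

/-- PIECE CALC.  The integral is `(1 - ρ)^2 (ρ + x) / ρ^2`:
`∫ (r^(-2) + 1) log (r / ρ) = [(r - 1/r) log (r / ρ)] - ∫ (1 - r^(-2))`. -/
def S_CALC : Prop :=
  ∀ ρ x : ℝ, 0 < ρ → ρ < 1 → |x| ≤ ρ →
    0 ≤ ∫ r in ρ..1, (r ^ 2)⁻¹ * ((1 + r ^ 2) * Real.log (r / ρ) - x + r ^ 2 * x / ρ ^ 2)

/-- PIECE GB, from `S_LOGF`, `S_CAH`, `S_CAL`, `S_CALC`, `S_POL`.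
On `|z| = r`, `Rw z = |1 + z|^2 / r^3`, so by `S_POL` the integral is
`2 pi ∫ (r from δ to 1) r^(-2) * average of |1 + z|^2 log |F z - b|`.
If `F ≠ b` in the disc `ball 0 1`: `F - b = exp H` there, `Re (H 0) = log |b|`,
`H' 0 = - β / b`, equality by `S_CAH`.  If `F a = b`, `|a| < 1` (`δ < |a|`, `a` unique):
`F z - b = (z - a) exp (H z)`, with `Re (H 0) = log |b / a|`, `H' 0 = - β / b + 1 / a`; by `S_CAH`, `S_CAL` the
average minus `(1 + r^2) log |b| - r^2 Re (β / b)` is `0` for `r < |a|` and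
`(1 + r^2) log (r / |a|) - Re a + r^2 Re a / |a|^2` for `r > |a|`; use `S_CALC`
(`∫ (δ to 1) (r^(-2) + 1) = 1/δ - δ`).
Integrability: `Rw` is bounded on `Ann δ` and `log |F - b|` is `log |z - a|` plus a bounded function
(`F` is univalent in a larger disc; a zero `a` with `|a| >= 1` is treated in the same way), or
bounded. -/
def S_GB : Prop :=
  ∀ (R0 β : ℝ) (F : ℂ → ℂ), Uni R0 β F → ∀ (b : ℂ) (δ : ℝ), b ≠ 0 → 0 < δ → δ < 1 →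
    (∀ z : ℂ, ‖z‖ ≤ δ → F z ≠ b) →
    IntegrableOn (fun z => Rw z * Real.log ‖F z - b‖) (Ann δ) ∧
    2 * Real.pi * (Real.log ‖b‖ * (1 / δ - δ) - β * (1 / b).re * (1 - δ))
      ≤ ∫ z in Ann δ, Rw z * Real.log ‖F z - b‖

/-- PIECE AVG.  `|Cd ζ| = |ζ| |ζ + 2| / 2` and `1 / Cd ζ = ζ^(-1) / (1 + ζ / 2)`; on the circle
`ζ^(-1) = conj ζ`, so `Re (1 / Cd ζ)` is the real part of `conj (1/Cd) = ζ / (1 + ζ^(-1) / 2)`..., or directly by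
Cauchy: the average of `ζ^(-1) g ζ` is `g' 0`, `g = 1 / (1 + ζ / 2)`, `g' 0 = - 1/2`. -/
def S_AVG : Prop :=
  (∀ ζ : ℂ, ‖ζ‖ = 1 → 1 / 2 ≤ ‖Cd ζ‖ ∧ ‖Cd ζ‖ ≤ 3 / 2) ∧
  Real.circleAverage (fun ζ => Real.log ‖Cd ζ‖) 0 1 = 0 ∧
  Real.circleAverage (fun ζ => (1 / Cd ζ).re) 0 1 = -1 / 2

/-- PIECE HARM, from `S_LOGF`.  `F z = z Q z` with `Q` analytic and nonvanishing on `ball 0 R0`,
`Q 0 = β`, `Q' 0 = F'' 0 / 2`; `F'` is nonvanishing.  `H = 2 log (F'/β) - 3 log (Q/β) - 2 log (1 + z)`,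
`H' 0 = 4 B/β - 3 B/β - 2 = B/β - 2 = - 3 β / 2`, `B = β (2 - 3 β / 2)`. -/
def S_HARM : Prop :=
  ∀ (R0 β : ℝ) (F : ℂ → ℂ), Uni R0 β F → ∃ H : ℂ → ℂ, DifferentiableOn ℂ H (ball 0 1) ∧
    (H 0).re = 0 ∧ (deriv H 0).re = -(3 * β / 2) ∧
    (∀ z : ℂ, z ≠ 0 → ‖z‖ < 1 → har β F z = (H z).re) ∧
    ∀ δ : ℝ, 0 < δ → δ < 1 → IntegrableOn (fun z => Rw z * har β F z) (Ann δ)

/-- PIECE FUB (Fubini), from `S_UF`, `S_RHO`.  `log |w - Cd ζ|` is absolutely integrable in `ζ` with a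
bound uniform for `|w| <= M` (upper bound by `log (M + 3/2)`, and the average is at least
`- log 2`), so `Rw z * log |F z - Cd ζ|` is integrable on the product of the annulus and the
circle (`F` is bounded on the closed unit disc, `Rw` on the annulus). -/
def S_FUB : Prop :=
  ∀ (R0 β : ℝ) (F : ℂ → ℂ), Uni R0 β F → ∀ δ : ℝ, 0 < δ → δ < 1 →
    IntegrableOn (fun z => Rw z * U (F z)) (Ann δ) ∧
    CircleIntegrable (fun ζ => ∫ z in Ann δ, Rw z * Real.log ‖F z - Cd ζ‖) 0 1 ∧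
    ∫ z in Ann δ, Rw z * U (F z)
      = Real.circleAverage (fun ζ => ∫ z in Ann δ, Rw z * Real.log ‖F z - Cd ζ‖) 0 1

/-- PIECE SIGD, from `S_POL`, `S_CAH`, `S_HARM`, `S_GB`, `S_AVG`, `S_FUB`.  Choose `δ0` with
`|F z| < 1/2` for `|z| <= δ0`.  `∫ Rw har = 2 pi ∫ r^(-2) (r^2 Re H' 0) = - 3 pi β (1 - δ)` and
`∫ Rw U(F) >= 2 pi (0 + (β / 2) (1 - δ))` by averaging `S_GB` (`b = Cd ζ`) over `ζ`; the sum
`- 3 pi β (1 - δ) + 3 * pi β (1 - δ)` is `0`. -/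
def S_SIGD : Prop :=
  ∀ (R0 β : ℝ) (F : ℂ → ℂ), Uni R0 β F → ∃ δ0 : ℝ, 0 < δ0 ∧ δ0 < 1 ∧ ∀ δ : ℝ, 0 < δ → δ < δ0 →
    0 ≤ ∫ z in Ann δ, Rw z * sig β F z

/-- PIECE SIG, from `S_SG`, `S_HARM`, `S_FUB`, `S_SIGD`.  Near `0`, `|Rw sig| <= 4 C / |z|`, which is
integrable; on the annulus use `S_HARM`, `S_FUB`.  The integral is the limit of the ones over
`Ann δ`. -/
def S_SIG : Prop :=
  ∀ (R0 β : ℝ) (F : ℂ → ℂ), Uni R0 β F →
    IntegrableOn (fun z => Rw z * sig β F z) (ball 0 1) ∧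
    0 ≤ ∫ z in ball (0 : ℂ) 1, Rw z * sig β F z

/-! ## Conclusion -/

/-- PIECE LOWR, from `S_CV`, `S_RHO`, `S_KOE`, `S_NB`, `S_SIG`: the lower bound of the `rho`-area of
`X = F (ball 0 1 \ Nset F η)`, with an error tending to `0`.
`∫ over X of rho = ∫ over (D \ N) |F'|^2 rho (F) = ∫ β^(-1) Rw exp (sig) >= β^(-1) ∫ Rw (1 + sig)`,
`∫ over (D \ N) Rw >= 2 pi / lam`, `lam = η / β + C η^3` (`S_NB`, `S_KOE`), and
`∫ over (D \ N) Rw sig` tends to `∫ over D >= 0`.  `2 pi / η - (2 pi / lam) / β` tends to `0`.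
(`Rw` is integrable on `D \ N` as `N` contains a disc around `0`.) -/
def S_LOWR : Prop :=
  ∀ (R0 β : ℝ) (F : ℂ → ℂ), Uni R0 β F → ∀ ε : ℝ, 0 < ε → ∀ᶠ η in 𝓝[>] (0 : ℝ),
    ENNReal.ofReal (2 * Real.pi / η)
      ≤ (∫⁻ w in F '' (ball 0 1 \ Nset F η), ENNReal.ofReal (rho w)) + ENNReal.ofReal ε

/-- PIECE MAIN, from `S_CV`, `S_BT`, `S_RHO`, `S_AREA`, `S_GR`, `S_NB`, `S_LOWR`.  Apply `S_BT` with
`X = F (ball 0 1 \ Nset F η)`, `N = Cd (Mset η)`: `vol G - vol (Cd (Mset η)) <= vol X + ε`. -/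
def S_MAIN : Prop :=
  ∀ (R0 β : ℝ) (F : ℂ → ℂ), Uni R0 β F →
    ENNReal.ofReal (3 * Real.pi / 2) ≤ volume (F '' ball (0 : ℂ) 1)

/-- The class `S`. -/
structure IsS (f : ℂ → ℂ) : Prop where
  hf : DifferentiableOn ℂ f (ball 0 1)
  inj : InjOn f (ball 0 1)
  f0 : f 0 = 0
  f1 : deriv f 0 = 1

/-- The second coefficient. -/
def a2 (f : ℂ → ℂ) : ℂ := deriv (deriv f) 0 / 2

/-- PIECE RED, from `S_MAIN`.  Let `0 < τ < 1`, `τ |a2| < 2`, `u` unimodular with `u a2 = |a2|`,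
`β = (2/3) (2 - τ |a2|)`, `mu = τ u`, `lam = β / mu`, `F z = lam f (mu z)`, `R0 = 1 / τ`.  Then `Uni R0 β F`
(`F'' 0 / 2 = lam mu^2 a2 = β τ |a2|`) and `vol F(D) = (β/τ)^2 vol f(τ D) <= (β/τ)^2 A`, so
`(2 - τ |a2|)^2 A >= (27 pi / 8) τ^2`.  If `|a2| >= 2` let `τ` tend to `2 / |a2|` from below: contradiction.
Otherwise let `τ` tend to `1`. -/
def S_RED : Prop :=
  ∀ f : ℂ → ℂ, IsS f → volume (f '' ball (0 : ℂ) 1) ≠ ⊤ →
    ‖a2 f‖ < 2 ∧ 27 * Real.pi / 8 ≤ (2 - ‖a2 f‖) ^ 2 * (volume (f '' ball (0 : ℂ) 1)).toReal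

/-- PIECE FINAL, from `S_RED`, `S_AREA`, `S_RHO`: `sqrt (27 pi / 8)` is the best constant; equality for
`f = Cd`: `a2 = 1/2`, `A = 3 pi / 2`, and `(3/2) (3 pi / 2)^(1/2) = (27 pi / 8)^(1/2)`. -/
def S_FINAL : Prop :=
  IsGreatest {c : ℝ | 0 ≤ c ∧ ∀ f : ℂ → ℂ, IsS f → volume (f '' ball (0 : ℂ) 1) ≠ ⊤ →
    ‖a2 f‖ ≤ 2 - c * (volume (f '' ball (0 : ℂ) 1)).toReal ^ (-(1 / 2) : ℝ)}
    (Real.sqrt (27 * Real.pi / 8))

end

end Pool.Agent.Run7.h104.AC
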