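import Pool.Agent.Run7.h104.AC.Defs

set_option autoImplicit false

/-!
# Second page: MP_7b8da2_an, the least area of `f (D)` for `f` in `S` with given second coefficient
-/

namespace Pool.Agent.Run7.h104.AC

open MeasureTheory Complex Set Filter Topology Metric

noncomputable section

/-- PIECE PICK.  `φ = Kb^(-1) (Kb z / κ)`: `Kb` is a bijection of the disc onto the complement of the half
line `k <= -1/4`, which is invariant under division by `κ >= 1`; the inverse of an injective analytic map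
is analytic.  `φ z = z / κ + (2 / κ - 2 / κ^2) z^2 + ...`, from `Kb z = z + 2 z^2 + ...`. -/
def S_PICK : Prop :=
  ∀ κ : ℝ, 1 ≤ κ → ∃ φ : ℂ → ℂ, DifferentiableOn ℂ φ (ball 0 1) ∧ InjOn φ (ball 0 1) ∧
    MapsTo φ (ball 0 1) (ball 0 1) ∧ φ 0 = 0 ∧ deriv φ 0 = ((1 / κ : ℝ) : ℂ) ∧
    deriv (deriv φ) 0 = ((2 * (2 / κ - 2 / κ ^ 2) : ℝ) : ℂ)

/-- PIECE EXT, from `S_PICK`, `S_RHO` (injectivity of `Cd`), `S_AREA`.  `κ = 3 / (2 (2 - |c|))`, `f0 = κ Cd (φ)`,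
`f0'' 0 / 2 = 2 - 3 / (2 κ) = |c|`, `f0 (D)` is contained in `κ G`; then rotate: `f z = conj u * f0 (u z)` with
`u |c| = c`. -/
def S_EXT : Prop :=
  ∀ c : ℂ, 1 / 2 ≤ ‖c‖ → ‖c‖ < 2 → ∃ f : ℂ → ℂ, IsS f ∧ a2 f = c ∧
    volume (f '' ball (0 : ℂ) 1) ≤ ENNReal.ofReal (27 * Real.pi / (8 * (2 - ‖c‖) ^ 2))

/-- PIECE FIN2, from `S_RED`, `S_EXT`: the least area for a given second coefficient. -/
def S_FIN2 : Prop :=
  (∀ c : ℂ, 1 / 2 ≤ ‖c‖ → ‖c‖ < 2 →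
    IsLeast {A : ENNReal | ∃ f : ℂ → ℂ, IsS f ∧ a2 f = c ∧ A = volume (f '' ball (0 : ℂ) 1)}
      (ENNReal.ofReal (27 * Real.pi / (8 * (2 - ‖c‖) ^ 2)))) ∧
  (∀ f : ℂ → ℂ, IsS f → 2 ≤ ‖a2 f‖ → volume (f '' ball (0 : ℂ) 1) = ⊤)

end

end Pool.Agent.Run7.h104.AC
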